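import Mathlib
import Pool.Agent.Helper9.Champ7

set_option autoImplicit false

namespace Pool.Agent.Results.MP_3b2897_nt.WeakPairCorrelation

open Filter Topology

/-- Digit number `i` (counted from `0`) of the infinite word `1 10 11 100 101 110 111 1000 ...`
obtained by writing `1, 2, 3, ...` in base `2` one after another: it is entry number `i` of the
concatenation of the binary expansions (most significant digit first) of `1, ..., i + 1`, which
has more than `i` digits. -/
def champDigit (i : ℕ) : ℕ :=
  ((List.range (i + 1)).flatMap fun m => (Nat.digits 2 (m + 1)).reverse).getD i 0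

/-- The binary Champernowne constant. -/
noncomputable def champernowne : ℝ := ∑' i : ℕ, (champDigit i : ℝ) / 2 ^ (i + 1)

/-- The doubling orbit: fractional part of `2 ^ n` times the constant. -/
noncomputable def x (n : ℕ) : ℝ := Int.fract (2 ^ n * champernowne)

/-- Distance to the nearest integer. -/
noncomputable def distInt (t : ℝ) : ℝ := |t - round t|

/-- Number of ordered pairs `(l, m)` with `1 ≤ l, m ≤ N`, `l ≠ m` and
`distInt (x l - x m) ≤ s * N ^ (-β)`. -/
noncomputable def R (N : ℕ) (s β : ℝ) : ℕ :=
  ((Finset.Icc 1 N ×ˢ Finset.Icc 1 N).filter fun p : ℕ × ℕ =>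
    p.1 ≠ p.2 ∧ distInt (x p.1 - x p.2) ≤ s * (N : ℝ) ^ (-β)).card

/-- For every `β` in `(0, 1)` and every `s ≥ 0` the weak pair correlation count of the doubling
orbit of the binary Champernowne constant is asymptotic to its random value. -/
theorem result (β : ℝ) (hβ0 : 0 < β) (hβ1 : β < 1) (s : ℝ) (hs : 0 ≤ s) :
    Tendsto (fun N : ℕ => (N : ℝ) ^ (β - 2) * (R N s β : ℝ)) atTop (𝓝 (2 * s)) :=
  Helper9.Champ.main β s hβ0 hβ1 hs

end Pool.Agent.Results.MP_3b2897_nt.WeakPairCorrelation
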